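import Pool.Agent.N604.MW.Stm10

/-!
# Project AD, part ALAT: lattice points in the balls `∑ α_i |u_i - γ_i| ^ k < y`
-/

set_option autoImplicit false

namespace Pool.Agent.N310.ADALAT

open Finset MeasureTheory Pool.Agent.N604.MW

/-- the norm -/
noncomputable def rho {s : ℕ} (p : ℝ) (β : Fin s → ℝ) (u : Fin s → ℝ) : ℝ :=
  (∑ i, |β i * u i| ^ p) ^ (1 / p)

/-- the ball -/
def Bl {s : ℕ} (p : ℝ) (β : Fin s → ℝ) (R : ℝ) : Set (Fin s → ℝ) := {u | rho p β u < R}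

theorem rho_nonneg {s : ℕ} (p : ℝ) (β u : Fin s → ℝ) : 0 ≤ rho p β u := by
  unfold rho; positivity

theorem rho_add {s : ℕ} {p : ℝ} (hp : 1 ≤ p) (β u v : Fin s → ℝ) :
    rho p β (u + v) ≤ rho p β u + rho p β v := by
  unfold rho
  have := Real.Lp_add_le Finset.univ (fun i => β i * u i) (fun i => β i * v i) hp
  refine le_trans (le_of_eq ?_) this
  congr 1
  refine Finset.sum_congr rfl fun i _ => ?_
  rw [Pi.add_apply, mul_add]

theorem rho_mono {s : ℕ} {p : ℝ} (hp : 1 ≤ p) (β u : Fin s → ℝ) (hβ : ∀ i, 0 < β i)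
    (hu : ∀ i, |u i| ≤ 1) : rho p β u ≤ rho p β (fun _ => 1) := by
  unfold rho
  have hp0 : 0 ≤ 1 / p := by positivity
  refine Real.rpow_le_rpow (by positivity) ?_ hp0
  refine Finset.sum_le_sum fun i _ => ?_
  refine Real.rpow_le_rpow (abs_nonneg _) ?_ (by linarith)
  rw [abs_mul, mul_one]
  calc |β i| * |u i| ≤ |β i| * 1 := mul_le_mul_of_nonneg_left (hu i) (abs_nonneg _)
    _ = |β i| := mul_one _

/-- the volume constant -/
noncomputable def V {s : ℕ} (p : ℝ) (β : Fin s → ℝ) : ℝ :=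
  (2 * Real.Gamma (1 / p + 1)) ^ s / Real.Gamma (s / p + 1) * ∏ i, (β i)⁻¹

theorem V_nonneg {s : ℕ} {p : ℝ} (hp : 1 ≤ p) (β : Fin s → ℝ) (hβ : ∀ i, 0 < β i) : 0 ≤ V p β := by
  unfold V
  have h1 : 0 < Real.Gamma (1 / p + 1) := Real.Gamma_pos_of_pos (by positivity)
  have h2 : 0 < Real.Gamma ((s : ℝ) / p + 1) := Real.Gamma_pos_of_pos (by positivity)
  have h3 : 0 ≤ ∏ i, (β i)⁻¹ := Finset.prod_nonneg fun i _ => (inv_pos.2 (hβ i)).le
  positivity

theorem vol_Bl {s : ℕ} (hs : 1 ≤ s) {p : ℝ} (hp : 1 ≤ p) (β : Fin s → ℝ) (hβ : ∀ i, 0 < β i)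
    {R : ℝ} (hR : 0 ≤ R) : volume (Bl p β R) = ENNReal.ofReal (V p β * R ^ s) := by
  have : Nonempty (Fin s) := ⟨⟨0, hs⟩⟩
  have hdet : LinearMap.det (Matrix.toLin' (Matrix.diagonal β)) = ∏ i, β i := by
    rw [LinearMap.det_toLin', Matrix.det_diagonal]
  have hprod : 0 < ∏ i, β i := Finset.prod_pos fun i _ => hβ i
  have hpre : Bl p β R = (Matrix.toLin' (Matrix.diagonal β)) ⁻¹'
      {x : Fin s → ℝ | (∑ i, |x i| ^ p) ^ (1 / p) < R} := by
    ext u
    simp only [Bl, rho, Set.mem_ofPred_eq, Set.mem_preimage, Matrix.toLin'_apply,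
      Matrix.mulVec_diagonal]
  rw [hpre, Measure.addHaar_preimage_linearMap volume (by rw [hdet]; exact hprod.ne'),
    volume_sum_rpow_lt (Fin s) hp R, hdet, Fintype.card_fin, ← ENNReal.ofReal_pow hR,
    ← ENNReal.ofReal_mul (by positivity), ← ENNReal.ofReal_mul (by positivity)]
  congr 1
  unfold V
  rw [abs_of_pos (inv_pos.2 hprod), Finset.prod_inv_distrib]
  ring

/-- the integral part -/
noncomputable def fl {s : ℕ} (γ : Fin s → ℝ) (u : Fin s → ℝ) : Fin s → ℤ := fun i => ⌊u i + γ i⌋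

theorem fl_pre {s : ℕ} (γ : Fin s → ℝ) (x : Fin s → ℤ) : fl γ ⁻¹' {x} =
    Set.pi Set.univ fun i => Set.Ico ((x i : ℝ) - γ i) ((x i : ℝ) - γ i + 1) := by
  ext u
  simp only [Set.mem_preimage, Set.mem_singleton_iff, Set.mem_pi, Set.mem_univ, true_implies,
    Set.mem_Ico]
  constructor
  · intro h i
    have h1 : ⌊u i + γ i⌋ = x i := congrFun h i
    rw [Int.floor_eq_iff] at h1
    constructor <;> linarith [h1.1, h1.2]
  · intro h
    funext i
    have h1 := h i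
    show ⌊u i + γ i⌋ = x i
    rw [Int.floor_eq_iff]
    constructor <;> linarith [h1.1, h1.2]

theorem vol_fl {s : ℕ} (γ : Fin s → ℝ) (F : Finset (Fin s → ℤ)) :
    volume (fl γ ⁻¹' (F : Set (Fin s → ℤ))) = F.card := by
  have h1 : fl γ ⁻¹' (F : Set (Fin s → ℤ)) = ⋃ x ∈ F, fl γ ⁻¹' {x} := by
    ext u; simp
  rw [h1, measure_biUnion_finset]
  · rw [Finset.sum_congr rfl (g := fun _ => (1 : ENNReal))]
    · simp
    · intro x _
      rw [fl_pre, Real.volume_pi_Ico]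
      simp
  · intro x _ y _ hxy
    refine Set.disjoint_left.2 fun u hu hu' => hxy ?_
    rw [Set.mem_preimage, Set.mem_singleton_iff] at hu hu'
    rw [← hu, ← hu']
  · intro x _
    rw [fl_pre]
    exact MeasurableSet.univ_pi fun i => measurableSet_Ico

theorem fl_close {s : ℕ} {p : ℝ} (hp : 1 ≤ p) (β γ u : Fin s → ℝ) (hβ : ∀ i, 0 < β i) :
    rho p β u ≤ rho p β (fun i => (fl γ u i : ℝ) - γ i) + rho p β (fun _ => 1) ∧
    rho p β (fun i => (fl γ u i : ℝ) - γ i) ≤ rho p β u + rho p β (fun _ => 1) := by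
  have h0 : ∀ i, (fl γ u i : ℝ) ≤ u i + γ i ∧ u i + γ i < fl γ u i + 1 := fun i =>
    ⟨Int.floor_le _, Int.lt_floor_add_one _⟩
  have h1 : ∀ i, |u i - ((fl γ u i : ℝ) - γ i)| ≤ 1 := fun i => by
    rw [abs_le]; constructor <;> linarith [(h0 i).1, (h0 i).2]
  have h2 : ∀ i, |((fl γ u i : ℝ) - γ i) - u i| ≤ 1 := fun i => by
    rw [abs_sub_comm]; exact h1 i
  constructor
  · have h3 := rho_add hp β (fun i => (fl γ u i : ℝ) - γ i) (fun i => u i - ((fl γ u i : ℝ) - γ i))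
    have h4 : (fun i => (fl γ u i : ℝ) - γ i) + (fun i => u i - ((fl γ u i : ℝ) - γ i)) = u := by
      funext i; simp
    rw [h4] at h3
    have h5 := rho_mono hp β (fun i => u i - ((fl γ u i : ℝ) - γ i)) hβ h1
    linarith
  · have h3 := rho_add hp β u (fun i => ((fl γ u i : ℝ) - γ i) - u i)
    have h4 : u + (fun i => ((fl γ u i : ℝ) - γ i) - u i) = (fun i => (fl γ u i : ℝ) - γ i) := by
      funext i; simp
    rw [h4] at h3
    have h5 := rho_mono hp β (fun i => ((fl γ u i : ℝ) - γ i) - u i) hβ h2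
    linarith

/-- the lattice points -/
def Lt {s : ℕ} (p : ℝ) (β γ : Fin s → ℝ) (R : ℝ) : Set (Fin s → ℤ) :=
  {x | rho p β (fun i => (x i : ℝ) - γ i) < R}

theorem coord_le {s : ℕ} {p : ℝ} (hp : 1 ≤ p) (β u : Fin s → ℝ) (i : Fin s) :
    |β i * u i| ≤ rho p β u := by
  unfold rho
  have hp0 : 0 < p := by linarith
  have h1 : |β i * u i| ^ p ≤ ∑ i, |β i * u i| ^ p :=
    Finset.single_le_sum (f := fun i => |β i * u i| ^ p) (fun j _ => by positivity)
      (Finset.mem_univ i)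
  calc |β i * u i| = (|β i * u i| ^ p) ^ (1 / p) := by
        rw [← Real.rpow_mul (abs_nonneg _), mul_one_div_cancel hp0.ne', Real.rpow_one]
    _ ≤ _ := Real.rpow_le_rpow (by positivity) h1 (by positivity)

theorem Lt_finite {s : ℕ} {p : ℝ} (hp : 1 ≤ p) (β γ : Fin s → ℝ) (hβ : ∀ i, 0 < β i) (R : ℝ) :
    (Lt p β γ R).Finite := by
  have h1 : Lt p β γ R ⊆ Set.pi Set.univ fun i =>
      Set.Icc ⌊γ i - R / β i⌋ ⌈γ i + R / β i⌉ := by
    intro x hx i _
    have h2 : |β i * ((x i : ℝ) - γ i)| < R := (coord_le hp β _ i).trans_lt hx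
    rw [abs_mul, abs_of_pos (hβ i)] at h2
    have h3 : |(x i : ℝ) - γ i| < R / β i := by
      rw [lt_div_iff₀ (hβ i)]; linarith
    rw [abs_lt] at h3
    constructor
    · have : (⌊γ i - R / β i⌋ : ℝ) ≤ x i := (Int.floor_le _).trans (by linarith)
      exact_mod_cast this
    · have : (x i : ℝ) ≤ ⌈γ i + R / β i⌉ := le_trans (by linarith) (Int.le_ceil _)
      exact_mod_cast this
  exact (Set.Finite.pi' fun i => Set.finite_Icc _ _).subset (by
    intro x hx i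
    exact h1 hx i (Set.mem_univ i))

theorem upper {s : ℕ} (hs : 1 ≤ s) {p : ℝ} (hp : 1 ≤ p) (β γ : Fin s → ℝ) (hβ : ∀ i, 0 < β i)
    {R : ℝ} (hR : 0 ≤ R) :
    ((Lt p β γ R).ncard : ℝ) ≤ V p β * (R + rho p β (fun _ => 1)) ^ s := by
  have hfin := Lt_finite hp β γ hβ R
  have hc := rho_nonneg p β (fun _ => (1 : ℝ))
  have h1 := vol_fl γ hfin.toFinset
  rw [Set.Finite.coe_toFinset] at h1
  have h2 : fl γ ⁻¹' (Lt p β γ R) ⊆ Bl p β (R + rho p β (fun _ => 1)) := by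
    intro u hu
    have h3 := (fl_close hp β γ u hβ).1
    have h4 : rho p β (fun i => (fl γ u i : ℝ) - γ i) < R := hu
    show rho p β u < _
    linarith
  have h3 := measure_mono (μ := volume) h2
  rw [h1, vol_Bl hs hp β hβ (by linarith)] at h3
  rw [Set.ncard_eq_toFinset_card _ hfin]
  have hV := V_nonneg hp β hβ
  have h5 : ((hfin.toFinset.card : ℝ)) = (hfin.toFinset.card : ENNReal).toReal := by simp
  rw [h5]
  exact ENNReal.toReal_le_of_le_ofReal (by positivity) h3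

theorem lower {s : ℕ} (hs : 1 ≤ s) {p : ℝ} (hp : 1 ≤ p) (β γ : Fin s → ℝ) (hβ : ∀ i, 0 < β i)
    {R : ℝ} (hR : rho p β (fun _ => 1) ≤ R) :
    V p β * (R - rho p β (fun _ => 1)) ^ s ≤ ((Lt p β γ R).ncard : ℝ) := by
  have hfin := Lt_finite hp β γ hβ R
  have h1 := vol_fl γ hfin.toFinset
  rw [Set.Finite.coe_toFinset] at h1
  have h2 : Bl p β (R - rho p β (fun _ => 1)) ⊆ fl γ ⁻¹' (Lt p β γ R) := by
    intro u hu
    have h3 := (fl_close hp β γ u hβ).2
    have h4 : rho p β u < R - rho p β (fun _ => 1) := hu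
    show rho p β (fun i => (fl γ u i : ℝ) - γ i) < R
    linarith
  have h3 := measure_mono (μ := volume) h2
  rw [h1, vol_Bl hs hp β hβ (by linarith)] at h3
  rw [Set.ncard_eq_toFinset_card _ hfin]
  have h6 : ENNReal.ofReal (V p β * (R - rho p β (fun _ => 1)) ^ s) ≤
      ENNReal.ofReal (hfin.toFinset.card : ℝ) := by
    rw [ENNReal.ofReal_natCast]; exact h3
  exact (ENNReal.ofReal_le_ofReal_iff (Nat.cast_nonneg _)).1 h6

theorem pow_diff {s : ℕ} (hs : 1 ≤ s) {a b : ℝ} (ha : 0 ≤ a) (hab : a ≤ b) :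
    b ^ s - a ^ s ≤ s * (b - a) * b ^ (s - 1) := by
  have h1 := geom_sum₂_mul b a s
  rw [← h1]
  have h2 : ∑ i ∈ range s, b ^ i * a ^ (s - 1 - i) ≤ s * b ^ (s - 1) := by
    calc ∑ i ∈ range s, b ^ i * a ^ (s - 1 - i) ≤ ∑ i ∈ range s, b ^ (s - 1) := by
          refine Finset.sum_le_sum fun i hi => ?_
          rw [Finset.mem_range] at hi
          have hb : 0 ≤ b := ha.trans hab
          calc b ^ i * a ^ (s - 1 - i) ≤ b ^ i * b ^ (s - 1 - i) :=
                mul_le_mul_of_nonneg_left (pow_le_pow_left₀ ha hab _) (by positivity)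
            _ = b ^ (s - 1) := by rw [← pow_add]; congr 1; omega
      _ = s * b ^ (s - 1) := by simp
  have h3 : 0 ≤ b - a := by linarith
  calc (∑ i ∈ range s, b ^ i * a ^ (s - 1 - i)) * (b - a) ≤ (s * b ^ (s - 1)) * (b - a) :=
        mul_le_mul_of_nonneg_right h2 h3
    _ = _ := by ring

theorem main_R {s : ℕ} (hs : 1 ≤ s) {p : ℝ} (hp : 1 ≤ p) (β γ : Fin s → ℝ) (hβ : ∀ i, 0 < β i) :
    ∃ C : ℝ, 0 < C ∧ ∀ R : ℝ, 1 ≤ R →
      |((Lt p β γ R).ncard : ℝ) - V p β * R ^ s| ≤ C * R ^ (s - 1) := by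
  set c := rho p β (fun _ => 1) with hc
  have hc0 : 0 ≤ c := rho_nonneg _ _ _
  have hV := V_nonneg hp β hβ
  refine ⟨V p β * (s * c * (1 + c) ^ (s - 1) + s * c + c) + 1, by positivity, fun R hR => ?_⟩
  have hR0 : 0 ≤ R := by linarith
  have hRs : 1 ≤ R ^ (s - 1) := one_le_pow₀ hR
  have hss : R ^ s = R * R ^ (s - 1) := by
    rw [← pow_succ']; congr 1; omega
  have hV1 : 0 ≤ V p β * (s * c * (1 + c) ^ (s - 1)) := by positivity
  have hV2 : 0 ≤ V p β * (s * c) := by positivity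
  have hV3 : 0 ≤ V p β * c := by positivity
  rw [abs_le]
  constructor
  · -- lower bound
    rcases le_total c R with h | h
    · have h1 := lower hs hp β γ hβ (R := R) h
      rw [← hc] at h1
      have h2 := pow_diff hs (a := R - c) (b := R) (by linarith) (by linarith)
      have h3 : R - (R - c) = c := by ring
      rw [h3] at h2
      have h4 : V p β * (R ^ s - (R - c) ^ s) ≤ V p β * (s * c * R ^ (s - 1)) :=
        mul_le_mul_of_nonneg_left h2 hV
      nlinarith [mul_nonneg hV1 (zero_le_one.trans hRs), mul_nonneg hV3 (zero_le_one.trans hRs)]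
    · have h1 : V p β * R ^ s ≤ V p β * (c * R ^ (s - 1)) := by
        rw [hss]
        exact mul_le_mul_of_nonneg_left (mul_le_mul_of_nonneg_right h (by positivity)) hV
      have h2 : (0 : ℝ) ≤ (Lt p β γ R).ncard := Nat.cast_nonneg _
      nlinarith [mul_nonneg hV1 (zero_le_one.trans hRs), mul_nonneg hV2 (zero_le_one.trans hRs)]
  · have h1 := upper hs hp β γ hβ (R := R) hR0
    rw [← hc] at h1
    have h2 := pow_diff hs (a := R) (b := R + c) hR0 (by linarith)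
    have h3 : R + c - R = c := by ring
    rw [h3] at h2
    have h4 : (R + c) ^ (s - 1) ≤ (1 + c) ^ (s - 1) * R ^ (s - 1) := by
      rw [← mul_pow]
      exact pow_le_pow_left₀ (by linarith) (by nlinarith) _
    have h5 : s * c * (R + c) ^ (s - 1) ≤ s * c * ((1 + c) ^ (s - 1) * R ^ (s - 1)) :=
      mul_le_mul_of_nonneg_left h4 (by positivity)
    have h6 : V p β * ((R + c) ^ s - R ^ s) ≤ V p β * (s * c * ((1 + c) ^ (s - 1) * R ^ (s - 1))) :=
      mul_le_mul_of_nonneg_left (h2.trans h5) hV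
    nlinarith [mul_nonneg hV2 (zero_le_one.trans hRs), mul_nonneg hV3 (zero_le_one.trans hRs)]

theorem alat : S_ALAT := by
  intro s k α γ hs hk hα
  obtain ⟨p, hp⟩ : ∃ p : ℝ, p = (k : ℝ) := ⟨_, rfl⟩
  have hp1 : 1 ≤ p := by rw [hp]; exact_mod_cast hk
  have hp0 : 0 < p := by linarith
  obtain ⟨β, hβ⟩ : ∃ β : Fin s → ℝ, β = fun i => α i ^ (1 / p) := ⟨_, rfl⟩
  have hβ0 : ∀ i, 0 < β i := fun i => by rw [hβ]; exact Real.rpow_pos_of_pos (hα i) _
  obtain ⟨C, hC, hmain⟩ := main_R hs hp1 β γ hβ0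
  refine ⟨C, hC, fun y hy => ?_⟩
  have hy0 : 0 ≤ y := by linarith
  have hR : 1 ≤ y ^ (1 / p) := Real.one_le_rpow hy (by positivity)
  have h1 := hmain (y ^ (1 / p)) hR
  have hset : {x : Fin s → ℤ | ∑ i, (fun (i : Fin s) (x : ℤ) => α i * |(x : ℝ) - γ i| ^ k) i (x i) < y} =
      Lt p β γ (y ^ (1 / p)) := by
    ext x
    simp only [Set.mem_ofPred_eq, Lt, rho]
    have h2 : ∑ i, |β i * ((x i : ℝ) - γ i)| ^ p = ∑ i, α i * |(x i : ℝ) - γ i| ^ k := by
      refine Finset.sum_congr rfl fun i _ => ?_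
      rw [abs_mul, abs_of_pos (hβ0 i), Real.mul_rpow (hβ0 i).le (abs_nonneg _), hβ]
      simp only
      rw [← Real.rpow_mul (hα i).le, one_div_mul_cancel hp0.ne', Real.rpow_one, hp,
        Real.rpow_natCast]
    rw [h2]
    have h3 : 0 ≤ ∑ i, α i * |(x i : ℝ) - γ i| ^ k :=
      Finset.sum_nonneg fun i _ => mul_nonneg (hα i).le (by positivity)
    exact (Real.rpow_lt_rpow_iff h3 hy0 (by positivity)).symm
  have hV : V p β = (2 * Real.Gamma (1 + 1 / (k : ℝ))) ^ s / Real.Gamma (1 + (s : ℝ) / k) *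
      (∏ i, α i ^ (-(1 / (k : ℝ)))) := by
    unfold V
    rw [hp, add_comm (1 / (k : ℝ)) 1, add_comm ((s : ℝ) / k) 1]
    congr 1
    refine Finset.prod_congr rfl fun i _ => ?_
    rw [hβ, Real.rpow_neg (hα i).le, hp]
  have hpow : (y ^ (1 / p)) ^ s = y ^ ((s : ℝ) / k) := by
    rw [← Real.rpow_natCast, ← Real.rpow_mul hy0, hp]
    congr 1
    ring
  have hpow2 : (y ^ (1 / p)) ^ (s - 1) = y ^ (((s : ℝ) - 1) / k) := by
    rw [← Real.rpow_natCast, ← Real.rpow_mul hy0, hp, Nat.cast_sub hs]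
    congr 1
    push_cast
    ring
  unfold CF
  rw [hset, ← hV, ← hpow, ← hpow2]
  exact h1

end Pool.Agent.N310.ADALAT
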